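import Pool.Agent.Lib.helper9.LKit
import Pool.Agent.Lib.helper10.Sat3

namespace Pool.Agent.Results.MP_833c47_lc.NPComplete

open Pool.Agent.Cx List Polynomial

/-- `u` and `v` are consecutive on the path with vertex sequence `P` -/
def Adj {α : Type} (P : List α) (u v : α) : Prop := [u, v] <:+: P ∨ [v, u] <:+: P

/-- `D` dominates the path `P` -/
def Dom {α : Type} (P : List α) (D : Finset α) : Prop := ∀ v ∈ P, v ∉ D → ∃ u ∈ D, Adj P u v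

/-- a set of at most `M` vertices dominates both paths -/
def Glob {α : Type} (P Q : List α) (M : ℕ) : Prop :=
  ∃ D : Finset α, (∀ v ∈ D, v ∈ P) ∧ D.card ≤ M ∧ Dom P D ∧ Dom Q D

/-- `(n, P, Q, M)`: two edge-disjoint Hamiltonian paths on `{1, ..., n}` with `γ_g ≤ M` -/
def Rec (z : ℕ × List ℕ × List ℕ × ℕ) : Prop :=
  z.2.1.Perm (range' 1 z.1) ∧ z.2.2.1.Perm (range' 1 z.1) ∧
    (∀ u v, ¬ (Adj z.2.1 u v ∧ Adj z.2.2.1 u v)) ∧ Glob z.2.1 z.2.2.1 z.2.2.2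

section
variable {α β : Type}

lemma win {P : List α} (nd : P.Nodup) {D : Finset α} (h : Dom P D) {x y z : α}
    (e : [x, y, z] <:+: P) : x ∈ D ∨ y ∈ D ∨ z ∈ D := by
  by_cases c : y ∈ D
  · simp [c]
  obtain ⟨u, u1, u2 | u2⟩ := h y (e.subset (by simp)) c
  · exact Or.inl (pred_uniq nd u2 ((show [x, y] <:+: [x, y, z] from ⟨[], [z], rfl⟩).trans e) ▸ u1)
  · exact Or.inr (Or.inr (succ_uniq nd u2 ((show [y, z] <:+: [x, y, z] from ⟨[x], [], rfl⟩).trans e) ▸ u1))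

lemma adj_map {P : List α} {ρ : α → β} {u v : β} :
    Adj (P.map ρ) u v ↔ ∃ a b, Adj P a b ∧ ρ a = u ∧ ρ b = v := by
  have : ∀ u v, [u, v] <:+: P.map ρ ↔ ∃ a b, [a, b] <:+: P ∧ ρ a = u ∧ ρ b = v := fun u v => by
    rw [infix_map_iff]
    constructor
    · rintro ⟨_ | ⟨a, _ | ⟨b, _ | _⟩⟩, h, e⟩ <;> simp at e
      exact ⟨a, b, h, e.1.symm, e.2.symm⟩
    · rintro ⟨a, b, h, rfl, rfl⟩; exact ⟨_, h, rfl⟩
  simp only [Adj, this]; grind

lemma Adj.mem {P : List α} {u v : α} (h : Adj P u v) : u ∈ P ∧ v ∈ P := by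
  rcases h with h | h <;> exact ⟨h.subset (by simp), h.subset (by simp)⟩

lemma dom_map [DecidableEq β] {P : List α} {ρ : α → β} {S : Set α} (i : Set.InjOn ρ S)
    (hP : ∀ x ∈ P, x ∈ S) {D : Finset α} (hD : ∀ x ∈ D, x ∈ S) :
    Dom (P.map ρ) (D.image ρ) ↔ Dom P D := by
  simp only [Dom, adj_map, mem_map, Finset.mem_image]
  constructor
  · intro h v hv c
    obtain ⟨_, ⟨u, u1, rfl⟩, a, b, e, e1, e2⟩ := h _ ⟨v, hv, rfl⟩ fun ⟨u, u1, u2⟩ =>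
      c (i (hD u u1) (hP v hv) u2 ▸ u1)
    exact ⟨u, u1, by rwa [← i (hP _ e.mem.1) (hD u u1) e1, ← i (hP _ e.mem.2) (hP v hv) e2]⟩
  · rintro h _ ⟨v, hv, rfl⟩ c
    obtain ⟨u, u1, u2⟩ := h v hv fun e => c ⟨v, e, rfl⟩
    exact ⟨_, ⟨u, u1, rfl⟩, u, v, u2, rfl, rfl⟩

lemma rec_map [BEq α] [LawfulBEq α] {P Q : List α} (nd : P.Nodup) (pm : Q.Perm P)
    (dj : ∀ u v, ¬ (Adj P u v ∧ Adj Q u v)) (M : ℕ) : Glob P Q M ↔
      Rec (P.length, P.map fun x => P.idxOf x + 1, Q.map fun x => P.idxOf x + 1, M) := by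
  classical
  have i : Set.InjOn (fun x => P.idxOf x + 1) {x | x ∈ P} := fun a ha b hb e =>
    (idxOf_inj ha).1 (by simpa using e)
  have hQ : ∀ x ∈ Q, x ∈ {x | x ∈ P} := fun x hx => pm.subset hx
  refine ⟨fun ⟨D, a, b, c, d⟩ => ⟨by rw [map_idxOf nd], by rw [← map_idxOf nd]; exact pm.map _, ?_,
    D.image _, ?_, Finset.card_image_le.trans b, (dom_map i (fun _ h => h) a).2 c,
    (dom_map i hQ a).2 d⟩, fun ⟨_, _, _, D, a, b, c, d⟩ => ?_⟩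
  · simp only [adj_map]
    rintro u v ⟨⟨a, b, e, rfl, rfl⟩, a', b', e', e1, e2⟩
    exact dj a b ⟨e, by rwa [← i (hQ _ e'.mem.1) e.mem.1 e1, ← i (hQ _ e'.mem.2) e.mem.2 e2]⟩
  · simp only [Finset.mem_image, mem_map]
    rintro _ ⟨x, hx, rfl⟩
    exact ⟨x, a x hx, rfl⟩
  · obtain ⟨E, e1, rfl⟩ := Finset.subset_image_iff.1 (show D ⊆ P.toFinset.image fun x => P.idxOf x + 1
      from fun v hv => by simpa using a v hv)
    have e2 : ∀ x ∈ E, x ∈ P := fun x hx => by simpa using e1 hx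
    exact ⟨E, e2, by rwa [Finset.card_image_of_injOn (i.mono e2)] at b,
      (dom_map i (fun _ h => h) e2).1 c, (dom_map i hQ e2).1 d⟩

end

abbrev T := ℕ × ℕ × ℕ
abbrev F := List (Lit × Lit × Lit)

def lit (φ : F) (s : ℕ) : Lit :=
  [(φ.getD (s / 3) ((0, false), (0, false), (0, false))).1,
    (φ.getD (s / 3) ((0, false), (0, false), (0, false))).2.1].getD (s % 3)
    (φ.getD (s / 3) ((0, false), (0, false), (0, false))).2.2
def sg (φ : F) (s : ℕ) : ℕ := (lit φ s).2.toNat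
def blk (s : ℕ) : List T := [(0, s, 0), (0, s, 1), (0, s, 2)]
def q1 (g i : ℕ) : List T := [(g, i, 0), (g, i, 1), (g, i, 2), (g, i, 3)]
def q2 (g i : ℕ) : List T := [(g, i, 2), (g, i, 0), (g, i, 3), (g, i, 1)]
def oc (φ : F) (v b : ℕ) : List ℕ :=
  (range (3 * φ.length)).filter fun s => decide ((lit φ s).1 = v ∧ sg φ s = b)
def pc1 (φ : F) (v : ℕ) : List T := (oc φ v 0 ++ oc φ v 1).flatMap blk ++ q1 1 v
def cl (φ : F) (j : ℕ) : List T :=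
  [(0, 3 * j, sg φ (3 * j)), (0, 3 * j + 1, sg φ (3 * j + 1)), (0, 3 * j + 2, sg φ (3 * j + 2))]
def pc2 (φ : F) (s : ℕ) : List T := q1 2 (3 * s) ++ (if s % 3 = 0 then cl φ (s / 3) else []) ++
  q1 2 (3 * s + 1) ++ (0, s, 1 - sg φ s) :: q1 2 (3 * s + 2) ++ [(0, s, 2)]
def P1 (φ : F) : List T := (range (size φ)).flatMap (pc1 φ) ++ (range (9 * φ.length)).flatMap (q2 2)
def P2 (φ : F) : List T := (range (3 * φ.length)).flatMap (pc2 φ) ++ (range (size φ)).flatMap (q2 1)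

def ok (φ : F) (p : T) : Prop := (p.1 = 0 ∧ p.2.1 < 3 * φ.length ∧ p.2.2 < 3) ∨
  (p.1 = 1 ∧ p.2.1 < size φ ∧ p.2.2 < 4) ∨ (p.1 = 2 ∧ p.2.1 < 9 * φ.length ∧ p.2.2 < 4)

variable {φ : F}

lemma sg_le (s : ℕ) : sg φ s ≤ 1 := Bool.toNat_le _

lemma vr_lt {s : ℕ} (h : s < 3 * φ.length) : (lit φ s).1 < size φ := by
  have h1 : s / 3 < φ.length := by omega
  have h2 := size_lt_of_mem (getElem_mem h1)
  unfold lit
  rw [getD_eq_getElem _ _ h1]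
  generalize φ[s / 3] = z at *
  obtain ⟨⟨a, _⟩, ⟨b, _⟩, ⟨c, _⟩⟩ := z
  rcases s % 3 with _ | _ | _ <;> simp at * <;> omega

lemma mem_oc {v b s : ℕ} : s ∈ oc φ v b ↔ s < 3 * φ.length ∧ (lit φ s).1 = v ∧ sg φ s = b := by
  simp [oc]

lemma mem_pc1 {v : ℕ} {p : T} : p ∈ pc1 φ v ↔
    (p.1 = 0 ∧ p.2.1 < 3 * φ.length ∧ (lit φ p.2.1).1 = v ∧ p.2.2 < 3) ∨ (p.1 = 1 ∧ p.2.1 = v ∧ p.2.2 < 4) := by
  obtain ⟨a, b, c⟩ := p
  have := sg_le (φ := φ) b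
  simp only [pc1, mem_append, mem_flatMap, mem_oc, blk, q1, mem_cons, Prod.mk.injEq, not_mem_nil, or_false]
  refine or_congr ⟨?_, fun h => ⟨b, by omega, by omega⟩⟩ (by omega)
  rintro ⟨s, h, g⟩
  obtain rfl : b = s := by omega
  omega

lemma mem_q1 {g i : ℕ} {p : T} : p ∈ q1 g i ↔ p.1 = g ∧ p.2.1 = i ∧ p.2.2 < 4 := by
  simp only [q1, mem_cons, Prod.ext_iff, not_mem_nil, or_false]; omega

lemma mem_q2 {g i : ℕ} {p : T} : p ∈ q2 g i ↔ p.1 = g ∧ p.2.1 = i ∧ p.2.2 < 4 := by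
  simp only [q2, mem_cons, Prod.ext_iff, not_mem_nil, or_false]; omega

lemma mem_cl {s : ℕ} {p : T} : p ∈ (if s % 3 = 0 then cl φ (s / 3) else []) ↔
    p.1 = 0 ∧ p.2.2 = sg φ p.2.1 ∧ 3 * (p.2.1 / 3) = s := by
  obtain ⟨a, b, c⟩ := p
  have : ∀ t, b = t ∧ c = sg φ t ↔ b = t ∧ c = sg φ b := fun t => by grind
  split_ifs <;> simp only [cl, mem_cons, Prod.mk.injEq, not_mem_nil, or_false, this, false_iff] <;> omega

lemma mem_pc2 {s : ℕ} {p : T} : p ∈ pc2 φ s ↔ (p.1 = 2 ∧ p.2.1 / 3 = s ∧ p.2.2 < 4) ∨ (p.1 = 0 ∧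
    ((p.2.2 = sg φ p.2.1 ∧ 3 * (p.2.1 / 3) = s) ∨ (p.2.2 ≠ sg φ p.2.1 ∧ p.2.2 < 3 ∧ p.2.1 = s))) := by
  obtain ⟨a, b, c⟩ := p
  have := sg_le (φ := φ) b
  have e : ∀ t, b = t ∧ c = 1 - sg φ t ↔ b = t ∧ c = 1 - sg φ b := fun t => by grind
  simp only [pc2, mem_append, mem_cons, mem_q1, mem_cl, Prod.mk.injEq, not_mem_nil, or_false, e]
  by_cases a = 0 <;> by_cases a = 2 <;> simp [*] <;> omega

lemma mem1 {p : T} : p ∈ P1 φ ↔ ok φ p := by
  simp only [P1, mem_append, mem_flatMap, mem_range, mem_pc1, mem_q2, ok]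
  constructor
  · rintro (⟨v, h⟩ | ⟨v, h⟩) <;> omega
  · rintro (h | h | h)
    · exact Or.inl ⟨_, vr_lt h.2.1, Or.inl ⟨h.1, h.2.1, rfl, h.2.2⟩⟩
    · exact Or.inl ⟨_, h.2.1, Or.inr ⟨h.1, rfl, h.2.2⟩⟩
    · exact Or.inr ⟨_, h.2.1, h.1, rfl, h.2.2⟩

lemma mem2 {p : T} : p ∈ P2 φ ↔ ok φ p := by
  have := sg_le (φ := φ) p.2.1
  simp only [P2, mem_append, mem_flatMap, mem_range, mem_pc2, mem_q2, ok]
  constructor
  · rintro (⟨v, h⟩ | ⟨v, h⟩) <;> omega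
  · rintro (h | h | h)
    · by_cases c : p.2.2 = sg φ p.2.1
      · exact Or.inl ⟨3 * (p.2.1 / 3), by omega⟩
      · exact Or.inl ⟨p.2.1, by omega⟩
    · exact Or.inr ⟨_, h.2.1, h.1, rfl, h.2.2⟩
    · exact Or.inl ⟨p.2.1 / 3, by omega⟩

lemma nd_oc (v : ℕ) : (oc φ v 0 ++ oc φ v 1).Nodup :=
  nodup_append.2 ⟨nodup_range.filter _, nodup_range.filter _, fun a ha b hb => by
    rintro rfl; rw [mem_oc] at ha hb; omega⟩

lemma nd_q2 (g n : ℕ) : ((range n).flatMap (q2 g)).Nodup :=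
  nodup_fm nodup_range (·.2.1) (by simp [q2]) fun _ _ _ h => (mem_q2.1 h).2.1

lemma nd1 : (P1 φ).Nodup := by
  refine nodup_append.2 ⟨nodup_fm nodup_range (fun p => if p.1 = 0 then (lit φ p.2.1).1 else p.2.1)
    (fun v _ => nodup_append.2 ⟨nodup_fm (nd_oc v) (·.2.1) (by simp [blk]) (by simp [blk]), by simp [q1],
      by simp [blk, q1]; grind⟩) fun v _ x h => ?_, nd_q2 _ _, ?_⟩
  · rw [mem_pc1] at h; split_ifs <;> omega
  · simp only [mem_flatMap, mem_pc1, mem_q2]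
    rintro a ⟨_, _, h⟩ b ⟨_, _, g⟩ rfl
    omega

lemma nd2 : (P2 φ).Nodup := by
  refine nodup_append.2 ⟨nodup_fm nodup_range (fun p => if p.1 = 2 then p.2.1 / 3 else
    if p.2.2 = sg φ p.2.1 then 3 * (p.2.1 / 3) else p.2.1) (fun s _ => ?_) fun v _ x h => ?_, nd_q2 _ _, ?_⟩
  · have := sg_le (φ := φ) s
    unfold pc2
    split_ifs with c
    · rw [cl, show 3 * (s / 3) = s by omega]; simp [q1]; omega
    · simp [q1]; omega
  · rw [mem_pc2] at h; split_ifs <;> omega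
  · simp only [mem_flatMap, mem_pc2, mem_q2]
    rintro a ⟨_, _, h⟩ b ⟨_, _, g⟩ rfl
    omega

def S2 (g : ℕ) (x y : T) : Prop := x.1 = g ∧ y.1 = g ∧ ((x.2.1 ≠ y.2.1 ∧ x.2.2 = 1 ∧ y.2.2 = 2) ∨
  (x.2.1 = y.2.1 ∧ ((x.2.2 = 2 ∧ y.2.2 = 0) ∨ (x.2.2 = 0 ∧ y.2.2 = 3) ∨ (x.2.2 = 3 ∧ y.2.2 = 1))))

def S1 (g : ℕ) (x y : T) : Prop := x.1 = g ∧ y.1 = g ∧ ((x.2.1 ≠ y.2.1 ∧ x.2.2 = 3 ∧ y.2.2 = 0) ∨
  (x.2.1 = y.2.1 ∧ y.2.2 = x.2.2 + 1))

def R1 (x y : T) : Prop := S2 2 x y ∨ S1 1 x y ∨ (x.1 = 1 ∧ y.1 = 2) ∨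
  (x.1 = 1 ∧ x.2.2 = 3 ∧ y.1 = 0) ∨ (x.1 = 0 ∧ y.1 = 1 ∧ y.2.2 = 0) ∨
  (x.1 = 0 ∧ y.1 = 0 ∧ ((x.2.1 = y.2.1 ∧ y.2.2 = x.2.2 + 1) ∨ x.2.2 = 2))

def R2 (x y : T) : Prop := S2 1 x y ∨ S1 2 x y ∨ (x.1 = 2 ∧ y.1 = 0) ∨ (x.1 = 0 ∧ y.1 = 2) ∨
  (x.1 = 0 ∧ y.1 = 1 ∧ y.2.2 = 2) ∨ (x.1 = 0 ∧ y.1 = 0 ∧ x.2.1 ≠ y.2.1 ∧ x.2.2 ≤ 1 ∧ y.2.2 ≤ 1)

lemma ch_q2 (g n : ℕ) : IsChain (S2 g) ((range n).flatMap (q2 g)) :=
  chain_fm nodup_range (by simp [q2, S2]) (by simp [q2, S2])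

lemma ch1 : IsChain R1 (P1 φ) := by
  have l : ∀ v, ∀ x ∈ (pc1 φ v).getLast?, x = (1, v, 3) := by simp [pc1, q1]
  refine IsChain.append (chain_fm nodup_range (fun v _ => IsChain.append (chain_fm (nd_oc v)
    (by simp [blk, R1]) (by simp [blk, R1])) (by simp [q1, R1, S1]) fun x hx => ?_)
    fun a _ b _ e x hx y hy => ?_) ((ch_q2 _ _).imp fun _ _ => Or.inl) fun x hx y hy => ?_
  · obtain ⟨s, -, h⟩ := last_fm hx
    simp [blk] at h; simp [← h, q1, R1]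
  · rw [l a x hx]
    rw [pc1, head?_append] at hy
    rcases h : ((oc φ b 0 ++ oc φ b 1).flatMap blk).head? with _ | z
    · rw [h] at hy; simp [q1] at hy; simp [← hy, R1, S1, e]
    · obtain ⟨s, -, g⟩ := head_fm h
      rw [h] at hy; simp [blk] at hy g; simp [← hy, ← g, R1]
  · obtain ⟨a, -, h⟩ := last_fm hx
    obtain ⟨b, -, g⟩ := head_fm hy
    simp [q2] at g; simp [l a x h, ← g, R1]

lemma ch2 : IsChain R2 (P2 φ) := by
  have l : ∀ v, ∀ x ∈ (pc2 φ v).getLast?, x = (0, v, 2) := fun v x h => by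
    rw [pc2, getLast?_concat] at h; exact (Option.some.inj h).symm
  refine IsChain.append (chain_fm nodup_range (fun s _ => ?_)
    fun a _ b _ e x hx y hy => ?_) ((ch_q2 _ _).imp fun _ _ => Or.inl) fun x hx y hy => ?_
  · unfold pc2
    split_ifs <;> simp [q1, cl, R2, S1, sg_le]
  · simp [pc2, q1] at hy; simp [l a x hx, ← hy, R2]
  · obtain ⟨a, -, h⟩ := last_fm hx
    obtain ⟨b, -, g⟩ := head_fm hy
    simp [q2] at g; simp [l a x h, ← g, R2]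

lemma rel_of {R : T → T → Prop} {l : List T} (h : IsChain R l) {u v : T} (e : [u, v] <:+: l) : R u v := by
  obtain ⟨a, b, rfl⟩ := e
  exact isChain_pair.1 h.left_of_append.right_of_append

lemma disj (u v : T) : ¬ (Adj (P1 φ) u v ∧ Adj (P2 φ) u v) := by
  rintro ⟨a | a, b | b⟩ <;> have a := rel_of ch1 a <;>
    have b := rel_of ch2 b <;> unfold R1 R2 S1 S2 at * <;> omega

lemma i1 {v : ℕ} (h : v < size φ) : pc1 φ v <:+: P1 φ :=
  (infix_fm (mem_range.2 h)).trans (prefix_append _ _).isInfix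

lemma i2 {s : ℕ} (h : s < 3 * φ.length) : pc2 φ s <:+: P2 φ :=
  (infix_fm (mem_range.2 h)).trans (prefix_append _ _).isInfix

lemma i3 {v : ℕ} (h : v < size φ) : q1 1 v <:+: P1 φ := (suffix_append _ _).isInfix.trans (i1 h)

lemma i4 {v : ℕ} (h : v < size φ) : q2 1 v <:+: P2 φ :=
  (infix_fm (mem_range.2 h)).trans (suffix_append _ _).isInfix

lemma i5 {t : ℕ} (h : t < 9 * φ.length) : q2 2 t <:+: P1 φ :=
  (infix_fm (mem_range.2 h)).trans (suffix_append _ _).isInfix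

lemma i6 {t : ℕ} (h : t < 9 * φ.length) : q1 2 t <:+: P2 φ := by
  refine IsInfix.trans ?_ (i2 (s := t / 3) (by omega))
  have : 3 * (t / 3) = t ∨ 3 * (t / 3) + 1 = t ∨ 3 * (t / 3) + 2 = t := by omega
  unfold pc2
  rcases this with h | h | h <;> rw [h]
  · exact ⟨[], _, by simp only [nil_append, append_assoc]; rfl⟩
  · exact ⟨q1 2 _ ++ _, _, by simp only [append_assoc]; rfl⟩
  · exact ⟨q1 2 _ ++ _ ++ q1 2 _ ++ [_], _, by simp only [append_assoc, cons_append, nil_append]; rfl⟩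

lemma i7 {s : ℕ} (h : s < 3 * φ.length) : blk s <:+: P1 φ :=
  (infix_fm (f := blk) (by have := sg_le (φ := φ) s; simp [mem_oc, h]; omega)).trans
    ((prefix_append _ _).isInfix.trans (i1 (vr_lt h)))

lemma i8 {j : ℕ} (h : j < φ.length) : (2, 9 * j, 3) :: cl φ j ++ [(2, 9 * j + 1, 0)] <:+: P2 φ := by
  refine IsInfix.trans ?_ (i2 (s := 3 * j) (by omega))
  simp only [pc2, q1, Nat.mul_mod_right, if_true, show 3 * j / 3 = j by omega, show 3 * (3 * j) = 9 * j by omega]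
  exact ⟨[_, _, _], _, by simp only [append_assoc, cons_append, nil_append]; rfl⟩

lemma sat_iff : Sat3 φ ↔ ∃ τ : ℕ → Bool, ∀ j < φ.length, ∃ r < 3,
    τ (lit φ (3 * j + r)).1 = (lit φ (3 * j + r)).2 := by
  refine exists_congr fun τ => ?_
  rw [forall_mem_iff_getElem]
  refine forall₂_congr fun j hj => ?_
  simp only [Nat.exists_lt_succ_right]
  simp [lit, hj, show (3 * j + 1) / 3 = j by omega, show (3 * j + 2) / 3 = j by omega, or_assoc]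

lemma nxt (S : List ℕ) (a : T) (l : List T) : ∀ s ∈ S, ∃ y, [(0, s, 2), y] <:+: S.flatMap blk ++ a :: l ∧
    (y = a ∨ ∃ t ∈ S, y = (0, t, 0)) := by
  induction S with
  | nil => simp
  | cons t S ih =>
    simp only [mem_cons, forall_eq_or_imp, flatMap_cons, append_assoc]
    refine ⟨?_, fun s hs => let ⟨y, a, b⟩ := ih s hs
      ⟨y, a.trans (suffix_append _ _).isInfix, b.imp id fun ⟨u, c, d⟩ => ⟨u, Or.inr c, d⟩⟩⟩
    rcases S with _ | ⟨u, S⟩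
    · exact ⟨a, ⟨[_, _], l, rfl⟩, Or.inl rfl⟩
    · exact ⟨_, ⟨[_, _], _, rfl⟩, Or.inr ⟨u, by simp, rfl⟩⟩

def cls (φ : F) : Finset (ℕ × ℕ) := {0} ×ˢ Finset.range (3 * φ.length) ∪
  ({1} ×ˢ Finset.range (size φ) ∪ {2} ×ˢ Finset.range (9 * φ.length))

lemma mem_cls {c : ℕ × ℕ} : c ∈ cls φ ↔ (c.1 = 0 ∧ c.2 < 3 * φ.length) ∨ (c.1 = 1 ∧ c.2 < size φ) ∨
    (c.1 = 2 ∧ c.2 < 9 * φ.length) := by
  simp only [cls, Finset.mem_union, Finset.mem_product, Finset.mem_singleton, Finset.mem_range]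

lemma sum_cls : ∑ c ∈ cls φ, min (c.1 + 1) 2 = 21 * φ.length + 2 * size φ := by
  rw [cls, Finset.sum_union, Finset.sum_union] <;> simp [Finset.disjoint_left] <;> omega

lemma of_sat (h : Sat3 φ) : Glob (P1 φ) (P2 φ) (21 * φ.length + 2 * size φ) := by
  classical
  obtain ⟨τ, h⟩ := sat_iff.1 h
  let t := fun s => (τ (lit φ s).1).toNat
  have t1 : ∀ s, t s ≤ 1 := fun s => Bool.toNat_le _
  let D : Finset T := (cls φ).biUnion fun c =>
    if c.1 = 0 then {(c.1, c.2, t c.2)} else {(c.1, c.2, 0), (c.1, c.2, 3)}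
  have m : ∀ p, p ∈ D ↔ ok φ p ∧ if p.1 = 0 then p.2.2 = t p.2.1 else p.2.2 = 0 ∨ p.2.2 = 3 := by
    rintro ⟨a, b, c⟩
    have := t1 b
    simp only [D, Finset.mem_biUnion, mem_cls, ok]
    constructor
    · rintro ⟨⟨x, y⟩, h, g⟩
      split_ifs at g <;> simp at g h <;> obtain rfl : b = y := by omega
      all_goals split_ifs <;> omega
    · exact fun h => ⟨(a, b), by omega, by split_ifs at * <;> simp [h.2]⟩
  have q : ∀ P g i, g ≠ 0 → ok φ (g, i, 0) → q1 g i <:+: P ∨ q2 g i <:+: P → ∀ k < 4, (g, i, k) ∉ D →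
      ∃ u ∈ D, Adj P u (g, i, k) := fun P g i g0 o h k hk c => by
    have a : (g, i, 0) ∈ D := by simp [m, g0, o]
    have b : (g, i, 3) ∈ D := by simp [m, g0]; unfold ok at *; simp at *; omega
    obtain rfl | rfl : k = 1 ∨ k = 2 := by
      rcases k with _ | _ | _ | _ | k <;> first | contradiction | omega
    · exact h.elim (fun h => ⟨_, a, Or.inl (IsInfix.trans ⟨[], _, rfl⟩ h)⟩)
        fun h => ⟨_, b, Or.inl (IsInfix.trans ⟨[_, _], [], rfl⟩ h)⟩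
    · exact h.elim (fun h => ⟨_, b, Or.inr (IsInfix.trans ⟨[_, _], [], rfl⟩ h)⟩)
        fun h => ⟨_, a, Or.inr (IsInfix.trans ⟨[], _, rfl⟩ h)⟩
  refine ⟨D, fun v hv => mem1.2 ((m v).1 hv).1, Finset.card_biUnion_le.trans
    (sum_cls ▸ Finset.sum_le_sum fun c _ => ?_), ?_, ?_⟩
  · split_ifs with e
    · simp [e]
    · exact Finset.card_le_two.trans (by omega)
  · rintro ⟨g, s, k⟩ hv c
    rcases mem1.1 hv with ⟨rfl, a, b⟩ | ⟨rfl, a, b⟩ | ⟨rfl, a, b⟩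
    · have e : ∀ s < 3 * φ.length, (0, s, t s) ∈ D := fun s a => by have := t1 s; simp [m, ok, a]; omega
      have e1 := e s a
      have : k ≠ t s := by rintro rfl; exact c e1
      have := t1 s
      simp only at a b
      obtain ⟨rfl, e2⟩ | ⟨rfl, e2⟩ | ⟨rfl, e2⟩ | ⟨rfl, e2⟩ : (k = 0 ∧ t s = 1) ∨ (k = 1 ∧ t s = 0) ∨
        (k = 2 ∧ t s = 1) ∨ (k = 2 ∧ t s = 0) := by omega
      · exact ⟨_, e2 ▸ e1, Or.inr (IsInfix.trans ⟨[], _, rfl⟩ (i7 a))⟩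
      · exact ⟨_, e2 ▸ e1, Or.inl (IsInfix.trans ⟨[], _, rfl⟩ (i7 a))⟩
      · exact ⟨_, e2 ▸ e1, Or.inl (IsInfix.trans ⟨[_], [], rfl⟩ (i7 a))⟩
      obtain ⟨y, y1, y2⟩ := nxt (oc φ (lit φ s).1 0 ++ oc φ (lit φ s).1 1) _ _ s
        (by have := sg_le (φ := φ) s; simp [mem_oc, a]; omega)
      refine ⟨y, ?_, Or.inr (y1.trans (i1 (vr_lt a)))⟩
      rcases y2 with rfl | ⟨u, u1, rfl⟩
      · simp [m, ok, vr_lt a]
      · simp only [mem_append, mem_oc] at u1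
        have := e u (by omega)
        rwa [show t u = t s by simp only [t]; rw [show (lit φ u).1 = (lit φ s).1 by omega], e2] at this
    · exact q _ _ _ (by simp) (by simpa [ok] using a) (Or.inl (i3 a)) _ b c
    · exact q _ _ _ (by simp) (by simpa [ok] using a) (Or.inr (i5 a)) _ b c
  · rintro ⟨g, s, k⟩ hv c
    rcases mem2.1 hv with ⟨rfl, a, b⟩ | ⟨rfl, a, b⟩ | ⟨rfl, a, b⟩
    · have := sg_le (φ := φ) s
      simp only at a b
      have e : ∀ i < 9 * φ.length, (2, i, 0) ∈ D ∧ (2, i, 3) ∈ D := fun i hi => by simp [m, ok, hi]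
      obtain rfl | rfl | rfl : k = 2 ∨ k = 1 - sg φ s ∨ k = sg φ s := by omega
      · exact ⟨_, (e (3 * s + 2) (by omega)).2, Or.inl (IsInfix.trans ⟨q1 2 _ ++ _ ++ q1 2 _ ++ [_, _, _, _],
          [], by simp only [pc2, q1, append_assoc, cons_append, nil_append, append_nil]; rfl⟩ (i2 a))⟩
      · exact ⟨_, (e (3 * s + 2) (by omega)).1, Or.inr (IsInfix.trans ⟨q1 2 _ ++ _ ++ q1 2 _, _, by
          simp only [pc2, q1, append_assoc, cons_append, nil_append]; rfl⟩ (i2 a))⟩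
      obtain ⟨j, rfl | rfl | rfl⟩ : ∃ j, s = 3 * j ∨ s = 3 * j + 1 ∨ s = 3 * j + 2 := ⟨s / 3, by omega⟩
      · exact ⟨_, (e (9 * j) (by omega)).2, Or.inl (IsInfix.trans ⟨[], _, rfl⟩ (i8 (by omega)))⟩
      · obtain ⟨r, r1, r2⟩ := h j (by omega)
        have : (0, 3 * j + r, sg φ (3 * j + r)) ∈ D := by
          have := sg_le (φ := φ) (3 * j + r)
          simp [m, ok, t, r2, sg] at *; omega
        obtain rfl | rfl | rfl : r = 0 ∨ r = 1 ∨ r = 2 := by omega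
        · exact ⟨_, this, Or.inl (IsInfix.trans ⟨[_], _, rfl⟩ (i8 (by omega)))⟩
        · contradiction
        · exact ⟨_, this, Or.inr (IsInfix.trans ⟨[_, _], _, rfl⟩ (i8 (by omega)))⟩
      · exact ⟨_, (e (9 * j + 1) (by omega)).1, Or.inr (IsInfix.trans ⟨[_, _, _], [], rfl⟩ (i8 (by omega)))⟩
    · exact q _ _ _ (by simp) (by simpa [ok] using a) (Or.inr (i4 a)) _ b c
    · exact q _ _ _ (by simp) (by simpa [ok] using a) (Or.inl (i6 a)) _ b c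

lemma to_sat (h : Glob (P1 φ) (P2 φ) (21 * φ.length + 2 * size φ)) : Sat3 φ := by
  classical
  obtain ⟨D, d0, d1, d2, d3⟩ := h
  let N := fun c : ℕ × ℕ => (D.filter fun p => (p.1, p.2.1) = c).card
  have two : ∀ g i k l, k ≠ l → (g, i, k) ∈ D → (g, i, l) ∈ D → 2 ≤ N (g, i) := fun g i k l e a b =>
    Finset.one_lt_card.2 ⟨(g, i, k), by simp [a], (g, i, l), by simp [b], by simp [e]⟩
  have q : ∀ g i {P Q}, P.Nodup → Q.Nodup → Dom P D → Dom Q D → q1 g i <:+: P → q2 g i <:+: Q →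
      2 ≤ N (g, i) := fun g i P Q n1 n2 a b c d => by
    have w1 := win n1 a (IsInfix.trans ⟨[], _, rfl⟩ c)
    have w2 := win n1 a (IsInfix.trans ⟨[_], [], rfl⟩ c)
    have w3 := win n2 b (IsInfix.trans ⟨[], _, rfl⟩ d)
    have w4 := win n2 b (IsInfix.trans ⟨[_], [], rfl⟩ d)
    have := two g i 0 1; have := two g i 0 2; have := two g i 0 3
    have := two g i 1 2; have := two g i 1 3; have := two g i 2 3
    grind
  have lo : ∀ c ∈ cls φ, min (c.1 + 1) 2 ≤ N c := by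
    rintro ⟨g, i⟩ hc
    rcases mem_cls.1 hc with ⟨rfl, a⟩ | ⟨rfl, a⟩ | ⟨rfl, a⟩
    · rcases win nd1 d2 (i7 a) with h | h | h <;> exact Finset.card_pos.2 ⟨_, Finset.mem_filter.2 ⟨h, rfl⟩⟩
    · exact q _ _ nd1 nd2 d2 d3 (i3 a) (i4 a)
    · exact q _ _ nd2 nd1 d3 d2 (i6 a) (i5 a)
  have one : ∀ s < 3 * φ.length, ∀ k ≠ 0, (0, s, 0) ∈ D → (0, s, k) ∉ D := fun s hs k e a b => by
    have := Finset.sum_lt_sum lo ⟨(0, s), by simp [mem_cls, hs], two _ _ _ _ e b a⟩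
    rw [sum_cls, ← Finset.card_eq_sum_card_fiberwise (fun p hp => by
      have := mem1.1 (d0 p hp); simp only [Finset.mem_coe, mem_cls, ok] at *; omega)] at this
    omega
  have ch : ∀ (S : List ℕ) s, (∀ t ∈ s :: S, t < 3 * φ.length) → (s :: S).flatMap blk <:+: P1 φ →
      (0, s, 0) ∈ D → ∀ t ∈ S, (0, t, 0) ∈ D := fun S => by
    induction S with
    | nil => simp
    | cons u S ih =>
      intro s a b c
      have := ((win nd1 d2 (IsInfix.trans ⟨[_], _, rfl⟩ b)).resolve_left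
        (one s (a s (by simp)) 1 (by simp) c)).resolve_left (one s (a s (by simp)) 2 (by simp) c)
      simp only [mem_cons, forall_eq_or_imp] at a ⊢
      exact ⟨this, ih u (by simpa using a.2) ((suffix_append _ _).isInfix.trans b) this⟩
  refine sat_iff.2 ⟨fun v => decide (∃ s ∈ oc φ v 1, (0, s, 1) ∈ D), fun j hj => ?_⟩
  obtain ⟨r, r1, r2⟩ : ∃ r < 3, (0, 3 * j + r, sg φ (3 * j + r)) ∈ D := by
    rcases win nd2 d3 (IsInfix.trans ⟨[_], _, rfl⟩ (i8 hj)) with h | h | h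
    exacts [⟨0, by omega, h⟩, ⟨1, by omega, h⟩, ⟨2, by omega, h⟩]
  refine ⟨r, r1, ?_⟩
  have hs : 3 * j + r < 3 * φ.length := by omega
  generalize 3 * j + r = s at *
  cases b : (lit φ s).2
  · simp only [decide_eq_false_iff_not]
    rintro ⟨u, u1, u2⟩
    obtain ⟨A, B, e⟩ := append_of_mem (mem_oc.2 ⟨hs, rfl, by simp [sg, b]⟩ : s ∈ oc φ _ 0)
    refine one u (mem_oc.1 u1).1 1 (by simp) (ch (B ++ oc φ (lit φ s).1 1) s (fun t ht => ?_) ?_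
      (by simpa [sg, b] using r2) u (by simp [u1])) u2
    · rw [← cons_append, mem_append] at ht
      exact ht.elim (fun h => (mem_oc.1 (e ▸ mem_append_right _ h)).1) fun h => (mem_oc.1 h).1
    · exact IsInfix.trans ⟨A.flatMap blk, q1 1 (lit φ s).1, by simp [pc1, e]⟩ (i1 (vr_lt hs))
  · exact decide_eq_true ⟨s, mem_oc.2 ⟨hs, rfl, by simp [sg, b]⟩, by simpa [sg, b] using r2⟩

lemma hard : Hard Rec := by
  have a : PT fun z : F × ℕ => lit z.1 z.2 := by unfold lit; fun_prop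
  have b : PT fun z : F × ℕ => sg z.1 z.2 := by unfold sg; fun_prop
  have c : PT fun z : F × ℕ × ℕ => oc z.1 z.2.1 z.2.2 := by
    unfold oc; exact PT.filter (PP.decide (by fun_prop)) (by fun_prop)
  have d : PT P1 := by unfold P1 pc1 blk q1 q2; fun_prop
  have e : PT P2 := by unfold P2 pc2 cl q1 q2; fun_prop
  refine hard_sat3.red (r := fun φ => ((P1 φ).length, (P1 φ).map fun x => (P1 φ).idxOf x + 1,
    (P2 φ).map fun x => (P1 φ).idxOf x + 1, 21 * φ.length + 2 * size φ)) ?_ fun φ =>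
    (Iff.intro of_sat to_sat).trans (rec_map nd1 ((perm_ext_iff_of_nodup nd2 nd1).2 fun _ =>
      mem2.trans mem1.symm) disj _)
  have : PT fun z : F × T => (P1 z.1).idxOf z.2 := PT.idxOf' (by fun_prop) (by fun_prop)
  fun_prop

def aj (P : List ℕ) (u v : ℕ) : Prop := (u, v) ∈ P.zip P.tail ∨ (v, u) ∈ P.zip P.tail

def pm (P : List ℕ) (n : ℕ) : Prop :=
  P.Nodup ∧ (¬ ∃ x ∈ P, x ∉ range' 1 n) ∧ ¬ ∃ x ∈ range' 1 n, x ∉ P

def dm (P D : List ℕ) : Prop := ¬ ∃ v ∈ P, v ∉ D ∧ ¬ ∃ u ∈ D, aj P u v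

def ver (z : (ℕ × List ℕ × List ℕ × ℕ) × List ℕ) : Prop :=
  pm z.1.2.1 z.1.1 ∧ pm z.1.2.2.1 z.1.1 ∧
    (¬ ∃ u ∈ z.1.2.1, ∃ v ∈ z.1.2.1, aj z.1.2.1 u v ∧ aj z.1.2.2.1 u v) ∧
    (¬ ∃ v ∈ z.2, v ∉ z.1.2.1) ∧ z.2.length ≤ z.1.2.2.2 ∧ dm z.1.2.1 z.2 ∧ dm z.1.2.2.1 z.2

lemma aj_iff {P : List ℕ} {u v : ℕ} : aj P u v ↔ Adj P u v := by simp [aj, Adj, infix_pair_iff]

lemma pm_iff {P : List ℕ} {n : ℕ} : pm P n ↔ P.Perm (range' 1 n) :=
  ⟨fun ⟨a, b, c⟩ => (perm_ext_iff_of_nodup a nodup_range').2 fun x => by grind,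
    fun h => ⟨h.nodup_iff.2 nodup_range', by simp [h.mem_iff], by simp [h.mem_iff]⟩⟩

lemma dm_iff {P D : List ℕ} : dm P D ↔ Dom P D.toFinset := by simp [dm, Dom, aj_iff]

theorem result : NPComplete (Lang Rec) := by
  classical
  refine ⟨inNP_Lang (V := fun z => decide (ver z)) (PP.decide ?_) (X * (X + 1) + 1)
    (fun z ⟨a, b, c, D, d1, d2, d3, d4⟩ => ⟨D.toList, ?_, decide_eq_true ⟨pm_iff.2 a, pm_iff.2 b, ?_,
      by simpa using d1, by simpa using d2, by simpa [dm_iff], by simpa [dm_iff]⟩⟩)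
    fun z D h => ?_, hard.npHard⟩
  · have h1 : PP fun x : List ℕ × ℕ × ℕ => aj x.1 x.2.1 x.2.2 := by unfold aj; fun_prop
    have h2 : PP fun x : List ℕ × ℕ => pm x.1 x.2 := by unfold pm; fun_prop
    have h3 : PP fun x : List ℕ × List ℕ => dm x.1 x.2 := by unfold dm; fun_prop
    unfold ver; fun_prop
  · have e : size z.2.1 ≤ size z := by obtain ⟨_, _, _, _⟩ := z; simp; omega
    have h1 := size_list_le D.toList (size z) fun x hx =>
      (size_lt_of_mem (d1 x (by simpa using hx))).le.trans e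
    have h2 : D.toList.length ≤ size z := ((D.nodup_toList.subperm fun x hx =>
      d1 x (by simpa using hx)).length_le.trans (length_lt_size _).le).trans e
    have := Nat.mul_le_mul_right (size z + 1) h2
    simp; omega
  · simp only [aj_iff]
    exact fun ⟨u, _, v, _, h⟩ => c u v h
  · obtain ⟨a, b, c, d, e, f, g⟩ := of_decide_eq_true h
    simp only [aj_iff] at c
    exact ⟨pm_iff.1 a, pm_iff.1 b, fun u v h => c ⟨u, h.1.mem.1, v, h.1.mem.2, h⟩, D.toFinset,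
      by simpa using d, (toFinset_card_le _).trans e, dm_iff.1 f, dm_iff.1 g⟩

end Pool.Agent.Results.MP_833c47_lc.NPComplete
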